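import Pool.Agent.Helper2.AG.Defs
import Pool.Agent.Helper2.HY.Euc
import Pool.Agent.Helper81.PW.Main

/-!
Project AG (MP_b8862a_ag), block T0: rescaling of the data.
-/

set_option linter.unusedSectionVars false

open Module PF TF PW

namespace AG

variable {E : Type*} [NormedAddCommGroup E] [InnerProductSpace ℝ E] {Φ X : Finset E} {n s : ℕ} {l y v : E} {c : ℝ}

theorem D3.sc (h : D3 Φ X n s l y v) (hc : 0 < c) :
    D3 (PF.sc c Φ) (PF.sc c X) n s (c • l) (c⁻¹ • y) (c • v) := by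
  refine ⟨Wd.sc hc h.wd, h.inn.sc hc, h.lev.sc hc, h.s_pos, h.h_pos, fun h1 h2 => ?_⟩
  obtain ⟨h3, h4⟩ := long_of_sc hc ⟨h1, h2⟩
  rw [span_sc hc, card_sc hc]
  exact h.adj h3 h4

end AG
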