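import Pool.Agent.Helper2.AG.Lie
import Pool.Agent.Helper2.HY.Core

/-!
Project AG (MP_b8862a_ag), block L1: a simple irreducible Lie algebra of skew endomorphisms which contains an element with the
eigenvalues `-1`, `0`, `1` of multiplicities `s`, `h`, `s` contains all skew endomorphisms, if `s` is not in `E1` and `(s, h)`
is not exceptional.
-/

set_option linter.unusedSectionVars false

open Module LieModule LieAlgebra LieAlgebra.IsKilling AddMonoidAlgebra MTP.MF PF PF.W PF.L TF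
open Pool.Agent.Helper54.MT (semisimple_of_diag exists_cartan_end killing_of)

attribute [local instance 100] LieRing.ofAssociativeRing

namespace AG

theorem core_ag {V : Type} [AddCommGroup V] [Module ℂ V] [FiniteDimensional ℂ V] {ω : LinearMap.BilinForm ℂ V}
    (hω : ω.IsSymm ∨ ω.IsAlt) (hnd : ω.Nondegenerate)
    {L : LieSubalgebra ℂ (Module.End ℂ V)} (_hsimp : IsSimple ℂ L)
    (hirr : ∀ W : Submodule ℂ V, (∀ x ∈ L, ∀ u ∈ W, x u ∈ W) → W = ⊥ ∨ W = ⊤)
    (hsk : ∀ x ∈ L, ∀ u v, ω (x u) v = -ω u (x v))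
    (h : Module.End ℂ V) (hh : h ∈ L) (ρ : ℤ → ℕ) (S : Finset ℤ)
    (hsup : (⨆ k ∈ S, Module.End.eigenspace h ((k : ℤ) : ℂ)) = ⊤)
    (hr : ∀ k ∈ S, finrank ℂ (Module.End.eigenspace h ((k : ℤ) : ℂ)) = ρ k) (hS : ∀ k, k ∉ S → ρ k = 0)
    (h3 : ∀ k, ρ k ≠ 0 → k = -1 ∨ k = 0 ∨ k = 1) {s : ℕ} (h1 : ρ 1 = s) (h1' : ρ (-1) = s) (hs : 2 ≤ s)
    (h0 : 2 * s < finrank ℂ V) (hE : s ∉ E1) (hx : ¬ Exc s (finrank ℂ V - 2 * s))
    (x : Module.End ℂ V) (hx : ∀ u v, ω (x u) v = -ω u (x v)) : x ∈ L := by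
  classical
  have hVn : Nontrivial V := by
    by_contra hcon
    rw [not_nontrivial_iff_subsingleton] at hcon
    apply LieAlgebra.IsSimple.non_abelian ℂ (L := L)
    refine ⟨fun x y => Subtype.ext ?_⟩
    exact Subsingleton.elim _ _
  have hSy : MTP.IrrSymp ω L.toSubmodule := ⟨fun x hx y hy => L.lie_mem hx hy, fun x hx => hsk x hx, hirr⟩
  have hk : IsKilling ℂ L := killing_of hnd hSy
  have hdiag : (⨆ c : ℂ, Module.End.eigenspace h c) = ⊤ := by
    rw [eq_top_iff, ← hsup]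
    exact iSup₂_le fun p _ => le_iSup (fun c : ℂ => Module.End.eigenspace h c) ((p : ℤ) : ℂ)
  obtain ⟨H, hH, hyH⟩ := exists_cartan_end (L := L) ⟨h, hh⟩ (semisimple_of_diag hdiag)
  have hirrR : (rootSystem H).IsIrreducible := inferInstance
  have hne : Nonempty H.root := by
    by_contra hcon
    rw [not_nonempty_iff] at hcon
    have hN : Nontrivial H := RootPairing.IsIrreducible.nontrivial' (rootSystem H)
    have h1 : (⊤ : Submodule ℂ H) = ⊥ := by
      have h2 : (rootSystem H).corootSpan ℂ = ⊤ := RootPairing.IsRootSystem.span_coroot_eq_top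
      rw [← h2, RootPairing.corootSpan, Set.range_eq_empty, Submodule.span_empty]
    exact bot_ne_top h1.symm
  have hirr' : ∀ W : Submodule ℂ V, (∀ x : L, ∀ u ∈ W, ⁅x, u⁆ ∈ W) → W = ⊥ ∨ W = ⊤ :=
    fun W hW => hirr W fun z hz w hw => hW ⟨z, hz⟩ w hw
  have hsk' : ∀ (x : L) (u v : V), ω ⁅x, u⁆ v = - ω u ⁅x, v⁆ := by
    intro x u v
    exact hsk x x.2 u v
  have hfaith : ∀ x : L, (∀ u : V, ⁅x, u⁆ = 0) → x = 0 := by
    intro x hx
    apply Subtype.ext
    ext u
    exact hx u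
  obtain ⟨m, ⟨B⟩⟩ := exists_WB (V := V) (H := H) hirr'
  have hcard : Fintype.card (Fin m) = finrank ℂ V := by
    rw [Module.finrank_eq_card_basis B.v]
  have hI : Nonempty (Fin m) := by
    rw [← Fintype.card_pos_iff, hcard]
    exact finrank_pos
  obtain ⟨y', hy'⟩ : ∃ y' : H, y' = ⟨⟨h, hh⟩, hyH⟩ := ⟨_, rfl⟩
  have hact : ∀ i, h (B.v i) = B.w i y' • B.v i := by
    intro i
    have h1 := B.lie_v i y'
    rw [hy'] at h1 ⊢
    exact h1
  -- the eigenvalues
  have hex : ∀ i, ∃ q ∈ S, B.w i y' = ((q : ℤ) : ℂ) := by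
    intro i
    by_contra! hcon
    have h1 := Module.End.eigenspaces_iSupIndep h (B.w i y')
    have h2 : (⊤ : Submodule ℂ V) ≤ ⨆ j, ⨆ (_ : j ≠ B.w i y'), Module.End.eigenspace h j := by
      rw [← hsup]
      exact iSup₂_le fun p hp => le_iSup₂ (f := fun (j : ℂ) (_ : j ≠ B.w i y') => Module.End.eigenspace h j)
        ((p : ℤ) : ℂ) (hcon p hp).symm
    rw [top_le_iff] at h2
    rw [h2, disjoint_top] at h1
    have h3 : B.v i ∈ Module.End.eigenspace h (B.w i y') := by
      rw [Module.End.mem_eigenspace_iff]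
      exact hact i
    rw [h1, Submodule.mem_bot] at h3
    exact B.v.ne_zero i h3
  choose q hqS hq using hex
  have hρ : ∀ k : ℤ, Fintype.card {i // q i = k} = ρ k := by
    intro k
    by_cases hk : k ∈ S
    · rw [← hr k hk, finrank_eig_diag B.v h (fun i => B.w i y') hact, Fintype.card_subtype]
      congr 1
      ext i
      rw [Finset.mem_filter, Finset.mem_filter, hq i]
      constructor
      · rintro ⟨-, h2⟩
        exact ⟨Finset.mem_univ _, by rw [h2]⟩
      · rintro ⟨-, h2⟩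
        exact ⟨Finset.mem_univ _, by exact_mod_cast h2⟩
    · rw [hS k hk, Fintype.card_eq_zero_iff]
      exact ⟨fun i => hk (i.2 ▸ hqS i.1)⟩
  have hq3 : ∀ i, q i = -1 ∨ q i = 0 ∨ q i = 1 := by
    intro i
    apply h3
    rw [← hρ (q i)]
    exact (Fintype.card_pos_iff.2 ⟨⟨i, rfl⟩⟩).ne'
  obtain ⟨l, z, v, hd⟩ := exists_d3 B hirr' hfaith hnd hsk' q hq hq3 (by omega : 0 < s) (by rw [hρ, h1])
    (by rw [hρ, h1']) (by rw [hcard]; exact h0)
  rw [hcard] at hd
  have hA : ¬ TypeA (PF.CC.Ph (rootSystem H)) := by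
    intro hA
    rw [← PF.C.PhiS_eq] at hA
    have hh0 : y' ≠ 0 := by
      intro h5
      have h6 : ∀ i, q i ≠ 1 := by
        intro i hi
        have h7 := hq i
        rw [h5, map_zero, hi] at h7
        norm_num at h7
      have h7 : Fintype.card {i // q i = 1} = 0 := Fintype.card_eq_zero_iff.2 ⟨fun i => h6 i.1 i.2⟩
      rw [hρ, h1] at h7
      omega
    have h4 := PF.C.finrank_eig B y' (fun i j hij => (PF.C.typeA_simple B hirr' hA).2 _ hh0 hij) (1 : ℂ)
    have h5 : (1 : ℤ) ∈ S := by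
      by_contra hcon
      have := hS 1 hcon
      omega
    have h6 := hr 1 h5
    rw [Int.cast_one] at h6
    rw [hy'] at h4
    have h7 : finrank ℂ (Module.End.eigenspace h (1 : ℂ)) ≤ 1 := h4
    omega
  have hBD : TypeB (PF.CC.Ph (rootSystem H)) (PF.CC.Xw B) ∨ TypeD (PF.CC.Ph (rootSystem H)) (PF.CC.Xw B) := by
    by_contra hcon
    push Not at hcon
    exact hE ⟨H.root, inferInstance, _, _, _, l, z, v, hd, hcon.1, hcon.2, ‹¬ Exc s (finrank ℂ V - 2 * s)›⟩
  rcases hω with hsymm | halt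
  · rcases PF.CC.choose_le B hirr' hnd hsk' hBD with h2 | h2
    · exact absurd h2 hA
    · rw [hcard] at h2
      exact PF.CC.full_of_le hsymm hnd L.toSubmodule (fun z hz => hsk z hz) h2 x hx
  · rcases hBD with ht | ht
    · exfalso
      obtain ⟨N, y, hy, c, hc, hX, -⟩ := ht
      obtain ⟨i, hi⟩ := (PF.CC.mem_Xw B).1 ((hX 0).2 (Or.inl rfl))
      have h0 : B.w i = 0 := by
        apply PF.C.toE_inj (PF.C.intl_w B i) PF.C.intl_zero
        rw [toE_w, hi, PF.C.toE_zero]
      obtain ⟨b⟩ := RootPairing.nonempty_base (rootSystem H)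
      obtain ⟨d, hd, hdodd⟩ := odd_rho B hirr' hnd halt hsk' b
      have h1 := hd i
      rw [h0, LinearMap.zero_apply] at h1
      have h2 : d i = 0 := by exact_mod_cast h1.symm
      have h3 := hdodd i
      rw [h2] at h3
      exact absurd h3 (by decide)
    · rw [← XS_eq, ← PF.C.PhiS_eq] at ht
      exact PF.C.typeD_sp B hirr' ht hnd halt hsk' hx

end AG
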