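import Pool.Agent.Helper2.AG.Core
import Pool.Agent.Helper14.TF.CoreT

/-!
Project AG (MP_b8862a_ag), block L1: `CoreL` for three levels.
-/

set_option linter.unusedSectionVars false

open Matrix Module

attribute [local instance 100] LieRing.ofAssociativeRing

namespace AG

/-- `CoreL` for three Hodge numbers. -/
theorem coreL_ag (n : Type) [Fintype n] {w a b c : ℤ} (hab : a + b = w) (hcw : 2 * c = w) (hca : c < a) {r : ℤ → ℕ}
    {S : Finset ℤ} (hS : ∀ p, p ∉ S → r p = 0) (hr : ∀ p, p ≠ a → p ≠ c → p ≠ b → r p = 0) (hba : r b = r a)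
    (hs : 2 ≤ r a) (hh : 0 < r c) (hn : Fintype.card n = 2 * r a + r c) (hE : r a ∉ E1) (hx : ¬ Exc (r a) (r c)) :
    MH.CoreL n w r S := by
  classical
  intro ω hω hnd L hL hirr hsk h hhL hsup hrk x hx'
  have hcard : finrank ℂ (n → ℂ) = Fintype.card n := Module.finrank_fintype_fun_eq_card ℂ
  obtain ⟨δ, hδ⟩ : ∃ δ : ℤ, δ = 2 * a - w := ⟨_, rfl⟩
  have hδ0 : 0 < δ := by omega
  have hδC : (δ : ℂ) ≠ 0 := by exact_mod_cast hδ0.ne'
  have key : ∀ k : ℤ, Module.End.eigenspace ((δ : ℂ)⁻¹ • h) (k : ℂ) =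
      Module.End.eigenspace h ((δ * k : ℤ) : ℂ) := by
    intro k
    ext v
    rw [Module.End.mem_eigenspace_iff, Module.End.mem_eigenspace_iff, LinearMap.smul_apply]
    constructor
    · intro h1
      have h2 := congrArg (fun u => (δ : ℂ) • u) h1
      simp only [smul_smul] at h2
      rw [mul_inv_cancel₀ hδC, one_smul] at h2
      rw [h2]
      congr 1
      push_cast
      ring
    · intro h1
      rw [h1, smul_smul]
      congr 1
      push_cast
      field_simp
  have haS : a ∈ S := by
    by_contra hcon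
    have := hS a hcon
    omega
  have hbS : b ∈ S := by
    by_contra hcon
    have := hS b hcon
    omega
  have hcS : c ∈ S := by
    by_contra hcon
    have := hS c hcon
    omega
  have ea : 2 * a - w = δ * 1 := by omega
  have eb : 2 * b - w = δ * (-1) := by omega
  have ec : 2 * c - w = δ * 0 := by omega
  refine core_ag hω hnd hL hirr hsk ((δ : ℂ)⁻¹ • h) (L.smul_mem _ hhL)
    (fun k => if k = 1 then r a else if k = -1 then r a else if k = 0 then r c else 0) {-1, 0, 1} ?_ ?_ ?_ ?_
    (s := r a) ?_ ?_ hs ?_ hE ?_ x hx'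
  · rw [eq_top_iff, ← hsup]
    refine iSup₂_le fun p hp => ?_
    by_cases h1 : p = a
    · subst h1
      refine le_trans (le_of_eq ?_) (le_iSup₂ (f := fun (k : ℤ) (_ : k ∈ ({-1, 0, 1} : Finset ℤ)) =>
        Module.End.eigenspace ((δ : ℂ)⁻¹ • h) (k : ℂ)) 1 (by simp))
      rw [key 1, ea]
    · by_cases h2 : p = b
      · subst h2
        refine le_trans (le_of_eq ?_) (le_iSup₂ (f := fun (k : ℤ) (_ : k ∈ ({-1, 0, 1} : Finset ℤ)) =>
          Module.End.eigenspace ((δ : ℂ)⁻¹ • h) (k : ℂ)) (-1) (by simp))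
        rw [key (-1), eb]
      · by_cases h3 : p = c
        · subst h3
          refine le_trans (le_of_eq ?_) (le_iSup₂ (f := fun (k : ℤ) (_ : k ∈ ({-1, 0, 1} : Finset ℤ)) =>
            Module.End.eigenspace ((δ : ℂ)⁻¹ • h) (k : ℂ)) 0 (by simp))
          rw [key 0, ec]
        · have h4 := hrk p hp
          rw [hr p h1 h3 h2, Submodule.finrank_eq_zero] at h4
          rw [h4]
          exact bot_le
  · intro k hk
    rw [key k]
    simp only [Finset.mem_insert, Finset.mem_singleton] at hk
    rcases hk with rfl | rfl | rfl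
    · rw [← eb, hrk b hbS, hba]
      norm_num
    · rw [← ec, hrk c hcS]
      norm_num
    · rw [← ea, hrk a haS]
      norm_num
  · intro k hk
    simp only [Finset.mem_insert, Finset.mem_singleton, not_or] at hk
    rw [if_neg hk.2.2, if_neg hk.1, if_neg hk.2.1]
  · intro k hk
    by_contra hcon
    simp only [not_or] at hcon
    apply hk
    rw [if_neg hcon.2.2, if_neg hcon.1, if_neg hcon.2.1]
  · norm_num
  · norm_num
  · rw [hcard]
    omega
  · rw [hcard]
    have h1 : Fintype.card n - 2 * r a = r c := by omega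
    rw [h1]
    exact hx

end AG
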