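import Pool.Agent.Helper2.HY.Defs
import Pool.Agent.Helper81.PW.Defs

/-!
Project AG (MP_b8862a_ag): three Hodge numbers `s, h, s` for almost all `s`. Definitions. Paper: /team-store/h2_AG_plan.md
-/

set_option linter.unusedSectionVars false

open Module PF TF PW

namespace AG

/-- The exceptional numbers `h` for a number `s`. -/
def Exc (s h : ℕ) : Prop :=
  h = 2 * s ∨ (∃ D t : ℕ, s = D * t ∧ h + 2 * s = D ^ 2) ∨ (∃ k l : ℕ, s = k * l ∧ h + 1 = k ^ 2 + l ^ 2) ∨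
    (2 < s ∧ 2 * h + s = s ^ 2 + 2) ∨ (2 < s ∧ Even s ∧ 2 * h + s = s ^ 2) ∨ (s = 2 ∧ h = 3) ∨ (s = 3 ∧ h = 8)

/-- At most `C X^(2/3)` elements up to `X`. -/
def Th (S : Set ℕ) : Prop := ∃ C : ℝ, ∀ X : ℕ, (cn S X : ℝ) ≤ C * (X : ℝ) ^ (2 / 3 : ℝ)

section
variable {E : Type*} [NormedAddCommGroup E] [InnerProductSpace ℝ E]

/-- The numerical data of a faithful irreducible self-dual module of dimension `n` with the levels `-1`, `0`, `1` of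
multiplicities `s`, `n - 2 s`, `s`: `Φ` the roots, `X` the weights, `l` the highest weight, `y` the grading element, `v` the
sum of the positive roots. -/
structure D3 (Φ X : Finset E) (n s : ℕ) (l y v : E) : Prop where
  wd : Wd Φ X n l v
  inn : In Φ X n (8 * s) l y
  lev : Lev3 X y
  s_pos : 0 < s
  h_pos : 2 * s < n
  adj : l ∈ Φ → (∀ a ∈ Φ, (inner ℝ a a : ℝ) ≤ inner ℝ l l) →
    n = finrank ℝ (Submodule.span ℝ (Φ : Set E)) + Φ.card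

/-- Type `A_(m-1)`, the highest weight has integral coordinates and is not a root. -/
def ShA1 (Φ : Finset E) (m : ℕ) (u : Fin m → E) (l : E) : Prop :=
  FrA Φ m u ∧ 9 ≤ m ∧ l ∉ Φ ∧ ∃ z : Fin m → ℤ, ∀ i, (inner ℝ l (u i) : ℝ) = z i

/-- Type `A_(m-1)`, the highest weight has half odd coordinates. -/
def ShA2 (Φ : Finset E) (m : ℕ) (u : Fin m → E) (l : E) : Prop :=
  FrA Φ m u ∧ 9 ≤ m ∧ ∃ z : Fin m → ℤ, ∀ i, (inner ℝ l (u i) : ℝ) = z i + 1 / 2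

/-- Types `C_m`, `D_m`, `y = (± 1/2, …, ± 1/2) / c`, `l = ± 2 c e_i` or `± c e_i ± c e_j`. -/
def ShD1 (Φ : Finset E) (m : ℕ) (e : Fin m → E) (c : ℝ) (d : ℕ) (l y : E) : Prop :=
  Fr Φ m e c d ∧ 9 ≤ m ∧ (∀ i, |(inner ℝ y (e i) : ℝ)| * (2 * c) = 1) ∧
    ∃ z : Fin m → ℤ, (∀ i, cx e c l i = z i) ∧ ∑ i, |z i| = 2

/-- Types `B_m`, `C_m`, `D_m`, `y = ± e_p / c`, `l` has `K` coordinates `± c`, the other coordinates are zero. -/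
def ShD2 (Φ : Finset E) (m : ℕ) (e : Fin m → E) (c : ℝ) (d K : ℕ) (l y : E) : Prop :=
  Fr Φ m e c d ∧ 9 ≤ m ∧ (∃ p, |(inner ℝ y (e p) : ℝ)| * c = 1 ∧ ∀ j, j ≠ p → (inner ℝ y (e j) : ℝ) = 0) ∧
    ∃ z : Fin m → ℤ, (∀ i, cx e c l i = z i) ∧ (∀ i, |z i| ≤ 1) ∧ ∑ i, |z i| = K
end

/-- the exceptional `s` coming from simple groups -/
def E1 : Set ℕ := {s | ∃ (ι : Type) (_ : Fintype ι) (Φ X : Finset (EuclideanSpace ℝ ι)) (n : ℕ) (l y v : EuclideanSpace ℝ ι),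
  D3 Φ X n s l y v ∧ ¬ TypeB Φ X ∧ ¬ TypeD Φ X ∧ ¬ Exc s (n - 2 * s)}

/-- the numbers `s` of the shape `ShA1` -/
def SA1 : Set ℕ := {s | ∃ (ι : Type) (_ : Fintype ι) (Φ X : Finset (EuclideanSpace ℝ ι)) (n : ℕ) (l y v : EuclideanSpace ℝ ι)
  (m : ℕ) (u : Fin m → EuclideanSpace ℝ ι), D3 Φ X n s l y v ∧ ShA1 Φ m u l}

/-- the numbers `s` of the shape `ShA2` -/
def SA2 : Set ℕ := {s | ∃ (ι : Type) (_ : Fintype ι) (Φ X : Finset (EuclideanSpace ℝ ι)) (n : ℕ) (l y v : EuclideanSpace ℝ ι)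
  (m : ℕ) (u : Fin m → EuclideanSpace ℝ ι), D3 Φ X n s l y v ∧ ShA2 Φ m u l}

/-- the numbers `s` of the shape `ShD1` -/
def SD1 : Set ℕ := {s | ∃ (ι : Type) (_ : Fintype ι) (Φ X : Finset (EuclideanSpace ℝ ι)) (n : ℕ) (l y v : EuclideanSpace ℝ ι)
  (m : ℕ) (e : Fin m → EuclideanSpace ℝ ι) (c : ℝ) (d : ℕ), D3 Φ X n s l y v ∧ ShD1 Φ m e c d l y}

/-- the numbers `s` of the shape `ShD2`, `K ≥ 3` -/
def SD2 : Set ℕ := {s | ∃ (ι : Type) (_ : Fintype ι) (Φ X : Finset (EuclideanSpace ℝ ι)) (n : ℕ) (l y v : EuclideanSpace ℝ ι)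
  (m : ℕ) (e : Fin m → EuclideanSpace ℝ ι) (c : ℝ) (d K : ℕ), 3 ≤ K ∧ D3 Φ X n s l y v ∧ ShD2 Φ m e c d K l y}

/-- the exceptional `s` coming from tensor products of at least three factors -/
def E2 : Set ℕ := {s | ∃ D j : ℕ, 2 ≤ D ∧ 3 ≤ j ∧ D ^ (j - 1) ∣ s ∧ 2 * s < D ^ j}

end AG
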