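import Pool.Agent.Helper2.AG.CoreL
import Pool.Agent.Helper2.HY.Main
import Pool.Agent.Helper55.UV.TwoM

/-!
Project AG (MP_b8862a_ag), block L2: the properties of the Hodge numbers that are used.
-/

set_option linter.unusedSectionVars false

open Matrix Module MH

namespace AG

/-- **Three Hodge numbers `s, h, s`.** -/
theorem nums_ag {n : Type} [Fintype n] [DecidableEq n] {w : ℤ} {Q : Matrix n n ℚ} {S : Finset ℤ} {P : ℤ → Matrix n n ℂ}
    (H : IsHW w Q S P) {a b c : ℤ} (hab : a + b = w) (hcw : 2 * c = w) (hca : c < a)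
    (hP : ∀ p, p ≠ a → p ≠ c → p ≠ b → P p = 0) (hs : 2 ≤ (P a).rank) (hh : 0 < (P c).rank)
    (h1 : (P a).rank ∉ E1) (h2 : (P a).rank ∉ E2) (hx : ¬ Exc (P a).rank (P c).rank) :
    HY.Nums n w (fun p => (P p).rank) := by
  have hcard := H.card_three55 (a := a) (b := b) (c := c) (by omega) (by omega) (by omega) hP
  have hbr : (P b).rank = (P a).rank := by
    have e1 := H.rank_refl55 a
    rwa [show w - a = b by omega] at e1
  have hr : ∀ p, p ≠ a → p ≠ c → p ≠ b → (P p).rank = 0 := fun p pa pc pb => by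
    rw [hP p pa pc pb, Matrix.rank_zero]
  have hS : ∀ p, p ∉ S → (P p).rank = 0 := fun p hp => by rw [H.supp p hp, Matrix.rank_zero]
  have hn : Fintype.card n = 2 * (P a).rank + (P c).rank := by omega
  refine ⟨by omega, ?_, ?_, ?_⟩
  · obtain ⟨k, hk⟩ : ∃ k : ℤ, k = a - c := ⟨_, rfl⟩
    have hw : w = 2 * c := hcw.symm
    rw [hw]
    refine indec_three55 (m := c) (k := k) (by omega) (s := (P a).rank) (h := (P c).rank) ?_ rfl ?_ ?_
    · rw [show c + k = a by omega]
    · intro p h1 h2 h3
      exact hr p (by omega) h2 (by omega)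
    · intro h
      exact hx (Or.inl h)
  · exact MH.CoreL.coreW (S := S) (coreL_ag n hab hcw hca hS hr hbr hs hh hn h1 hx) (by omega) hS
  · intro D j hD hj hDj hdiv
    obtain ⟨t, ht⟩ := hdiv a
    simp only at ht
    by_cases hj2 : j = 2
    · subst hj2
      apply hx
      refine Or.inr (Or.inl ⟨D, t, ?_, ?_⟩)
      · rw [ht]
        norm_num
      · omega
    · apply h2
      refine ⟨D, j, hD, by omega, ⟨t, ht⟩, ?_⟩
      omega

end AG
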