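import Pool.Agent.Helper2.AG.Lie
import Pool.Agent.Helper88.MT.Top

/-!
Project AG (MP_b8862a_ag), stage 2: the parity of the highest weight of an orthogonal module. The proof of `even_rho` is the
one of `MTP.MF.odd_rho` (helper88).
-/

set_option linter.unusedSectionVars false
set_option linter.unusedVariables false

open Module LieModule LieAlgebra LieAlgebra.IsKilling AddMonoidAlgebra MTP.MF PF PF.W PF.L PF.CC TF TF.L PW

namespace AG

/-- The sum of the pairings of `l` with the positive coroots is even: the module with the highest weight `l` is orthogonal. -/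
def Par {E : Type*} [NormedAddCommGroup E] [InnerProductSpace ℝ E] (Φ : Finset E) (l v : E) : Prop :=
  ∃ k : ℤ, ∑ a ∈ Ps Φ v, co a l = 2 * k

variable {K : Type*} [Field K] [CharZero K] [IsAlgClosed K]
  {L : Type*} [LieRing L] [LieAlgebra K L] [FiniteDimensional K L] [IsKilling K L]
  {H : LieSubalgebra K L} [H.IsCartanSubalgebra]
  {V : Type*} [AddCommGroup V] [Module K V] [FiniteDimensional K V]
  [LieRingModule L V] [LieModule K L V] {I : Type*} [Fintype I] {ω : LinearMap.BilinForm K V}

/-- **The eigenvalues of the sum of the positive coroots on an orthogonal module are even.** -/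
theorem even_rho (B : WB (V := V) H I) [Nonempty H.root]
    (hirr : ∀ W : Submodule K V, (∀ x : L, ∀ u ∈ W, ⁅x, u⁆ ∈ W) → W = ⊥ ∨ W = ⊤)
    (hnd : ω.Nondegenerate) (hsymm : ω.IsSymm)
    (hsk : ∀ (x : L) (u v : V), ω ⁅x, u⁆ v = - ω u ⁅x, v⁆)
    (b : (rootSystem H).Base) :
    ∃ c : I → ℤ, (∀ i, B.w i (rho2 b) = (c i : K)) ∧ ∀ i, Even (c i) := by
  classical
  obtain ⟨c, hc, hpar⟩ := exists_int B hirr hnd hsk b
  refine ⟨c, hc, ?_⟩
  rcases isEmpty_or_nonempty I with hI | hI
  · exact fun i => isEmptyElim i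
  obtain ⟨t, ht⟩ := Finite.exists_max c
  have huniq := top_unique B hirr b hc ht
  -- the top eigenvalue is nonnegative
  have hneg : ∃ j, c j = - c t := by
    have h2 : B.v.repr ((B.dual hnd hsk).v t) ≠ 0 := by
      intro h
      exact (B.dual hnd hsk).v.ne_zero t (B.v.repr.map_eq_zero_iff.mp h)
    obtain ⟨j, hj⟩ := Finsupp.ne_iff.mp h2
    refine ⟨j, ?_⟩
    have h3 : B.w j (rho2 b) = (- B.w t) (rho2 b) := B.coord ((B.dual hnd hsk).lie_v t (rho2 b)) hj
    rw [LinearMap.neg_apply, hc, hc] at h3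
    exact_mod_cast h3
  have hnn : 0 ≤ c t := by
    obtain ⟨j, hj⟩ := hneg
    have := ht j
    omega
  obtain ⟨m, hm⟩ := Int.eq_ofNat_of_zero_le hnn
  suffices heven : Even (c t) by
    intro i
    have h1 := hpar i t
    have : c i = (c i - c t) + c t := by ring
    rw [this]
    exact h1.add heven
  by_contra hodd
  rw [Int.not_even_iff_odd] at hodd
  have hmo : Odd m := by
    rw [hm] at hodd
    exact_mod_cast hodd
  obtain ⟨e, f, htr, es, fs, hes, hfs, he, hf⟩ := exists_principal b
  -- the top vector is primitive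
  have hprim : htr.HasPrimitiveVectorWith (B.v t) ((m : ℕ) : K) := by
    refine ⟨B.v.ne_zero t, ?_, ?_⟩
    · rw [B.lie_v, hc, hm, Int.cast_natCast]
    · rw [he, sum_lie]
      refine Finset.sum_eq_zero fun j hj => ?_
      apply B.v.repr.injective
      rw [map_zero]
      ext i
      by_contra hi
      have h1 := B.coord_root (hes j) hi (rho2 b)
      rw [hc, hc, root_rho] at h1
      have h2 : c i = 2 * b.height j + c t := by
        have : ((c i : ℤ) : K) = ((2 * b.height j + c t : ℤ) : K) := by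
          rw [h1]; push_cast; ring
        exact Int.cast_injective this
      have h3 := ht i
      have h4 : b.height j = 1 := RootPairing.Base.height_one_of_mem_support hj
      omega
  -- the lowest vector does not vanish
  have hpow : ∀ n : ℕ, n ≤ m → ((toEnd K L V f) ^ n) (B.v t) ≠ 0 := by
    intro n
    induction n with
    | zero => intro _; simpa using B.v.ne_zero t
    | succ n ih =>
      intro hn h0
      have h1 := hprim.lie_e_pow_succ_toEnd_f n
      rw [h0, lie_zero] at h1
      have h2 := (smul_eq_zero.mp h1.symm).resolve_right (ih (by omega))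
      have h3 : ((n : K) + 1) ≠ 0 := by exact_mod_cast Nat.succ_ne_zero n
      have h4 := (mul_eq_zero.mp h2).resolve_left h3
      have h5 : (m : K) = (n : K) := sub_eq_zero.mp h4
      have h6 : m = n := Nat.cast_injective h5
      omega
  set z := ((toEnd K L V f) ^ m) (B.v t) with hz
  have hz0 : z ≠ 0 := hpow m le_rfl
  have hzw : ⁅((rho2 b : H) : L), z⁆ = (-(m : K)) • z := by
    have := hprim.lie_h_pow_toEnd_f m
    rw [← hz] at this
    rw [this]
    congr 1
    ring
  -- `z` is orthogonal to all basis vectors except the top one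
  have horth : ∀ i, i ≠ t → ω z (B.v i) = 0 := by
    intro i hi
    have h1 := hsk ((rho2 b : H) : L) z (B.v i)
    rw [hzw, B.lie_v, hc, map_smul, map_smul, LinearMap.smul_apply, smul_eq_mul, smul_eq_mul] at h1
    have h2 : ((c i : K) - (m : K)) * ω z (B.v i) = 0 := by linear_combination h1
    rcases mul_eq_zero.mp h2 with h | h
    · exfalso
      apply hi
      apply huniq
      rw [hm]
      have : ((c i : ℤ) : K) = (((m : ℕ) : ℤ) : K) := by
        rw [Int.cast_natCast]; exact sub_eq_zero.mp h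
      exact Int.cast_injective this
    · exact h
  have hzt : ω z (B.v t) = 0 := by
    have hpowsk : ∀ (n : ℕ) (u v : V), ω (((toEnd K L V f) ^ n) u) v =
        (-1) ^ n * ω u (((toEnd K L V f) ^ n) v) := by
      intro n
      induction n with
      | zero => intro u v; simp
      | succ n ih =>
        intro u v
        have e1 : ((toEnd K L V f) ^ (n + 1)) u = ((toEnd K L V f) ^ n) ⁅f, u⁆ := by
          rw [pow_succ]; rfl
        have e2 : ((toEnd K L V f) ^ (n + 1)) v = ⁅f, ((toEnd K L V f) ^ n) v⁆ := by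
          rw [pow_succ']; rfl
        rw [e1, e2, ih, hsk]
        ring
    have h1 := hpowsk m (B.v t) (B.v t)
    rw [← hz, hmo.neg_one_pow] at h1
    have h2 : ω (B.v t) z = ω z (B.v t) := hsymm.eq (B.v t) z
    rw [h2] at h1
    have h3 : (2 : K) * ω z (B.v t) = 0 := by linear_combination h1
    exact (mul_eq_zero.mp h3).resolve_left two_ne_zero
  apply hz0
  apply hnd.1
  intro v
  have h1 : ω z = 0 := by
    refine B.v.ext fun i => ?_
    rw [LinearMap.zero_apply]
    by_cases hi : i = t
    · rw [hi, hzt]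
    · exact horth i hi
  rw [h1]; rfl

/-- **The data of an orthogonal module.** -/
theorem exists_d3_par (B : WB (V := V) H I) [Nonempty I] [Nonempty H.root] [(rootSystem H).IsIrreducible] [IsSimple K L]
    (hirr : ∀ W : Submodule K V, (∀ x : L, ∀ u ∈ W, ⁅x, u⁆ ∈ W) → W = ⊥ ∨ W = ⊤)
    (hfaith : ∀ x : L, (∀ u : V, ⁅x, u⁆ = 0) → x = 0)
    (hnd : ω.Nondegenerate) (hsymm : ω.IsSymm) (hsk : ∀ (x : L) (u v : V), ω ⁅x, u⁆ v = - ω u ⁅x, v⁆)
    {y : H} (a : I → ℤ) (ha : ∀ i, B.w i y = (a i : K)) (ha3 : ∀ i, a i = -1 ∨ a i = 0 ∨ a i = 1) {s : ℕ} (hs : 0 < s)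
    (h1 : Fintype.card {i // a i = 1} = s) (h2 : Fintype.card {i // a i = -1} = s) (h3 : 2 * s < Fintype.card I) :
    ∃ l y' v : EuclideanSpace ℝ H.root, D3 (PF.CC.Ph (rootSystem H)) (PF.CC.Xw B) (Fintype.card I) s l y' v ∧
      Par (PF.CC.Ph (rootSystem H)) l v := by
  classical
  have hy : y ≠ 0 := by
    rintro rfl
    have h4 : 0 < Fintype.card {i // a i = 1} := by omega
    obtain ⟨i, hi⟩ := Fintype.card_pos_iff.1 h4
    have h5 := ha i
    rw [map_zero, hi] at h5
    norm_num at h5
  have hT : ((8 * s : ℕ) : ℤ) = ∑ i, (2 * a i) ^ 2 := by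
    have h4 : ∀ i, (2 * a i) ^ 2 = (if a i = 1 then 4 else 0) + (if a i = -1 then 4 else 0) := by
      intro i
      rcases ha3 i with h | h | h <;> rw [h] <;> norm_num
    rw [Finset.sum_congr rfl fun i _ => h4 i, Finset.sum_add_distrib, ← Finset.sum_filter, ← Finset.sum_filter,
      Finset.sum_const, Finset.sum_const, ← Fintype.card_subtype, ← Fintype.card_subtype, h1, h2]
    push_cast
    ring
  obtain ⟨b⟩ : Nonempty (rootSystem H).Base := (rootSystem H).nonempty_base
  obtain ⟨t, y', hin, -, hrank, htb, hlev⟩ := exists_in2_b b B hirr hfaith hnd hsk hy (fun i => 2 * a i)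
    (fun i => by rw [ha i]; push_cast; ring) (fun i j => ⟨a i - a j, by ring⟩) hT
  obtain ⟨t', v, htb', hPs, hwd⟩ := exists_wd_b b B hirr hfaith hnd hsk
  have htt : PF.CC.vec (PF.CC.wt B t') = PF.CC.vec (PF.CC.wt B t) := by
    have e1 : B.w t' = B.w t := Below.antisymm (htb t') (htb' t)
    congr 1
    funext β
    have e2 := PF.CC.wt_spec B t' β
    rw [e1, PF.CC.wt_spec] at e2
    exact_mod_cast e2.symm
  rw [htt] at hwd
  refine ⟨PF.CC.vec (PF.CC.wt B t), y', v, ⟨hwd, hin, ?_, hs, h3, ?_⟩, ?_⟩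
  · intro x hx
    obtain ⟨i, rfl⟩ := (PF.CC.mem_Xw B).1 hx
    have h4 := hlev i
    have h5 : (inner ℝ (PF.CC.vec (PF.CC.wt B i)) y' : ℝ) = (a i : ℝ) := by
      rw [h4]
      push_cast
      ring
    rw [h5]
    rcases ha3 i with h | h | h <;> rw [h] <;> norm_num
  · intro h4 h5
    rw [card_adj B hirr hfaith b htb h4 h5, hrank, TF.card_Ph, add_comm (finrank K H), TF.L.card_root_eq H]
  · obtain ⟨d, hd, hev⟩ := even_rho B hirr hnd hsymm hsk b
    obtain ⟨k, hk⟩ := hev t
    refine ⟨k, ?_⟩
    have hinj : Set.InjOn (fun α : H.root => vec (PF.CC.rt (rootSystem H) α)) (pos b : Set H.root) :=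
      fun α _ β _ h => rt_inj (rootSystem H) (vec_inj h)
    rw [hPs, Finset.sum_image hinj, Finset.sum_congr rfl fun α _ => co_vec _ (wt_wt B t) α]
    have h4 : ((∑ α ∈ pos b, PF.CC.wt B t α : ℤ) : K) = ((2 * k : ℤ) : K) := by
      have h5 : B.w t (rho2 b) = ((∑ α ∈ pos b, PF.CC.wt B t α : ℤ) : K) := by
        rw [rho2, map_sum, Int.cast_sum]
        exact Finset.sum_congr rfl fun α _ => PF.CC.wt_spec B t α
      rw [← h5, hd t, hk]
      push_cast
      ring
    have h5 : (∑ α ∈ pos b, PF.CC.wt B t α : ℤ) = 2 * k := by exact_mod_cast h4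
    exact_mod_cast h5

end AG
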