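import Pool.Agent.Helper2.AG.Defs

/-!
Project AG (MP_b8862a_ag): sets with `O(X^(2/3))` elements up to `X`; block T1.
-/

set_option linter.unusedSectionVars false

open PW

namespace AG

open Classical in
theorem Th.mono {S T : Set ℕ} (h : ∀ s ∈ S, 1 ≤ s → s ∈ T) (hT : Th T) : Th S := by
  obtain ⟨C, hC⟩ := hT
  refine ⟨C, fun X => le_trans ?_ (hC X)⟩
  have h1 : cn S X ≤ cn T X := by
    refine Finset.card_le_card fun s hs => ?_
    rw [Finset.mem_filter] at hs ⊢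
    exact ⟨hs.1, h s hs.2 (Finset.mem_Icc.1 hs.1).1⟩
  exact_mod_cast h1

open Classical in
/-- counting by a parametrisation -/
theorem cn_le {α : Type*} {S : Set ℕ} {X : ℕ} (f : α → ℕ) (A : Finset α)
    (h : ∀ s ∈ S, 1 ≤ s → s ≤ X → ∃ a ∈ A, f a = s) : cn S X ≤ A.card := by
  refine le_trans (Finset.card_le_card (t := A.image f) ?_) Finset.card_image_le
  intro s hs
  rw [Finset.mem_filter, Finset.mem_Icc] at hs
  obtain ⟨a, ha, h1⟩ := h s hs.2 hs.1.1 hs.1.2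
  exact Finset.mem_image.2 ⟨a, ha, h1⟩

open Classical in
theorem cn_union (S T : Set ℕ) (X : ℕ) : cn (S ∪ T) X ≤ cn S X + cn T X := by
  refine le_trans (cn_le (fun a => a) (((Finset.Icc 1 X).filter (· ∈ S)) ∪ ((Finset.Icc 1 X).filter (· ∈ T))) ?_)
    (Finset.card_union_le _ _)
  intro s hs h1 h2
  refine ⟨s, ?_, rfl⟩
  rw [Finset.mem_union, Finset.mem_filter, Finset.mem_filter, Finset.mem_Icc]
  rcases hs with hs | hs
  · exact Or.inl ⟨⟨h1, h2⟩, hs⟩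
  · exact Or.inr ⟨⟨h1, h2⟩, hs⟩

theorem ncard_eq (S : Set ℕ) (X : ℕ) : (S ∩ Set.Icc 1 X).ncard = cn S X := by
  classical
  unfold cn
  rw [← Set.ncard_coe_finset]
  congr 1
  ext s
  simp only [Set.mem_inter_iff, Set.mem_Icc, Finset.coe_filter, Finset.mem_Icc, Set.mem_ofPred_eq]
  tauto

theorem Th.union {S T : Set ℕ} (hS : Th S) (hT : Th T) : Th (S ∪ T) := by
  obtain ⟨C, hC⟩ := hS
  obtain ⟨C', hC'⟩ := hT
  refine ⟨C + C', fun X => ?_⟩
  have h2 : (cn (S ∪ T) X : ℝ) ≤ cn S X + cn T X := by exact_mod_cast cn_union S T X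
  have h3 := hC X
  have h4 := hC' X
  linarith

open Classical in
theorem cn_zero (S : Set ℕ) : cn S 0 = 0 := by
  unfold cn
  rw [Finset.card_eq_zero]
  rfl

theorem one_le_rpow23 {X : ℕ} (hX : 1 ≤ X) {r : ℝ} (hr : 0 ≤ r) : (1 : ℝ) ≤ (X : ℝ) ^ r :=
  Real.one_le_rpow (by exact_mod_cast hX) hr

/-- it is enough to bound the number of elements up to `X ≥ 1` -/
theorem Th.of_pos {S : Set ℕ} (C : ℝ) (h : ∀ X : ℕ, 1 ≤ X → (cn S X : ℝ) ≤ C * (X : ℝ) ^ (2 / 3 : ℝ)) : Th S := by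
  refine ⟨C, fun X => ?_⟩
  rcases Nat.eq_zero_or_pos X with rfl | hX
  · rw [cn_zero, Nat.cast_zero, Real.zero_rpow (by norm_num), mul_zero]
  · exact h X hX

theorem Th.of_le {S : Set ℕ} (C₀ : ℕ) (h : ∀ s ∈ S, s ≤ C₀) : Th S := by
  refine Th.of_pos (C₀ : ℝ) fun X hX => ?_
  have h1 : cn S X ≤ (Finset.Icc 1 C₀).card :=
    cn_le (fun a => a) _ fun s hs h1 _ => ⟨s, Finset.mem_Icc.2 ⟨h1, h s hs⟩, rfl⟩
  rw [Nat.card_Icc, Nat.add_sub_cancel] at h1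
  have h2 : (cn S X : ℝ) ≤ C₀ := by exact_mod_cast h1
  have h3 := one_le_rpow23 hX (r := 2 / 3) (by norm_num)
  nlinarith [(Nat.cast_nonneg C₀ : (0 : ℝ) ≤ C₀)]

/-- `s` is determined by `m` and `k`, `m ≤ (c s) ^ (1/3)`, `k ≤ c m`. -/
theorem Th.three {S : Set ℕ} (c : ℕ) (f : ℕ → ℕ → ℕ)
    (h : ∀ s ∈ S, ∃ m k, m ^ 3 ≤ c * s ∧ k ≤ c * m ∧ f m k = s) : Th S := by
  obtain ⟨q, hq⟩ : ∃ q : ℝ, q = (c : ℝ) ^ (1 / 3 : ℝ) := ⟨_, rfl⟩
  have hq0 : 0 ≤ q := by rw [hq]; positivity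
  refine Th.of_pos ((q + 1) ^ 2 * (c + 1)) fun X hX => ?_
  obtain ⟨x, hx⟩ : ∃ x : ℝ, x = (X : ℝ) ^ (1 / 3 : ℝ) := ⟨_, rfl⟩
  have hx1 : 1 ≤ x := by rw [hx]; exact one_le_rpow23 hX (by norm_num)
  obtain ⟨M, hM⟩ : ∃ M : ℕ, M = ⌊q * x⌋₊ := ⟨_, rfl⟩
  have hqx : q * x = ((c : ℝ) * X) ^ (1 / 3 : ℝ) := by
    rw [hq, hx, Real.mul_rpow (by positivity) (by positivity)]
  have h1 : cn S X ≤ (Finset.range (M + 1) ×ˢ Finset.range (c * M + 1)).card := by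
    refine cn_le (fun a : ℕ × ℕ => f a.1 a.2) _ fun s hs _ hsX => ?_
    obtain ⟨m, k, h2, h3, h4⟩ := h s hs
    have h5 : m ≤ M := by
      rw [hM]
      apply Nat.le_floor
      rw [hqx]
      have h6 : ((m : ℝ)) = ((m : ℝ) ^ (3 : ℕ)) ^ (1 / 3 : ℝ) := by
        rw [← Real.rpow_natCast, ← Real.rpow_mul (Nat.cast_nonneg m)]
        norm_num
      rw [h6]
      apply Real.rpow_le_rpow (by positivity) _ (by norm_num)
      have h7 : m ^ 3 ≤ c * X := h2.trans (Nat.mul_le_mul_left _ hsX)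
      exact_mod_cast h7
    refine ⟨(m, k), Finset.mem_product.2 ⟨Finset.mem_range.2 (by omega), Finset.mem_range.2 ?_⟩, h4⟩
    have := Nat.mul_le_mul_left c h5
    show k < c * M + 1
    omega
  rw [Finset.card_product, Finset.card_range, Finset.card_range] at h1
  have h2 : (cn S X : ℝ) ≤ (M + 1) * (c * M + 1) := by exact_mod_cast h1
  have h3 : (M : ℝ) ≤ q * x := by rw [hM]; exact Nat.floor_le (by positivity)
  have h4 : (X : ℝ) ^ (2 / 3 : ℝ) = x ^ 2 := by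
    rw [hx, ← Real.rpow_natCast, ← Real.rpow_mul (by positivity)]
    norm_num
  rw [h4]
  have h5 : (M : ℝ) + 1 ≤ (q + 1) * x := by nlinarith
  have hM0 : (0 : ℝ) ≤ M := Nat.cast_nonneg M
  have hc0 : (0 : ℝ) ≤ c := Nat.cast_nonneg c
  have h6 : (c * M + 1 : ℝ) ≤ (c + 1) * (M + 1) := by nlinarith
  calc (cn S X : ℝ) ≤ (M + 1) * (c * M + 1) := h2
    _ ≤ (M + 1) * ((c + 1) * (M + 1)) := mul_le_mul_of_nonneg_left h6 (by positivity)
    _ = (c + 1) * (M + 1) ^ 2 := by ring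
    _ ≤ (c + 1) * ((q + 1) * x) ^ 2 :=
        mul_le_mul_of_nonneg_left (pow_le_pow_left₀ (by positivity) h5 2) (by positivity)
    _ = _ := by ring

/-- `s` is determined by `m` and `k`, `m ≤ (c s) ^ (1/2)`, `k ≤ c`. -/
theorem Th.two {S : Set ℕ} (c : ℕ) (f : ℕ → ℕ → ℕ)
    (h : ∀ s ∈ S, ∃ m k, m ^ 2 ≤ c * s ∧ k ≤ c ∧ f m k = s) : Th S := by
  obtain ⟨q, hq⟩ : ∃ q : ℝ, q = (c : ℝ) ^ (1 / 2 : ℝ) := ⟨_, rfl⟩
  have hq0 : 0 ≤ q := by rw [hq]; positivity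
  refine Th.of_pos ((q + 1) * (c + 1)) fun X hX => ?_
  obtain ⟨x, hx⟩ : ∃ x : ℝ, x = (X : ℝ) ^ (1 / 2 : ℝ) := ⟨_, rfl⟩
  have hx1 : 1 ≤ x := by rw [hx]; exact one_le_rpow23 hX (by norm_num)
  obtain ⟨M, hM⟩ : ∃ M : ℕ, M = ⌊q * x⌋₊ := ⟨_, rfl⟩
  have hqx : q * x = ((c : ℝ) * X) ^ (1 / 2 : ℝ) := by
    rw [hq, hx, Real.mul_rpow (by positivity) (by positivity)]
  have h1 : cn S X ≤ (Finset.range (M + 1) ×ˢ Finset.range (c + 1)).card := by
    refine cn_le (fun a : ℕ × ℕ => f a.1 a.2) _ fun s hs _ hsX => ?_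
    obtain ⟨m, k, h2, h3, h4⟩ := h s hs
    have h5 : m ≤ M := by
      rw [hM]
      apply Nat.le_floor
      rw [hqx]
      have h6 : ((m : ℝ)) = ((m : ℝ) ^ (2 : ℕ)) ^ (1 / 2 : ℝ) := by
        rw [← Real.rpow_natCast, ← Real.rpow_mul (Nat.cast_nonneg m)]
        norm_num
      rw [h6]
      apply Real.rpow_le_rpow (by positivity) _ (by norm_num)
      have h7 : m ^ 2 ≤ c * X := h2.trans (Nat.mul_le_mul_left _ hsX)
      exact_mod_cast h7
    exact ⟨(m, k), Finset.mem_product.2 ⟨Finset.mem_range.2 (by omega), Finset.mem_range.2 (by omega)⟩, h4⟩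
  rw [Finset.card_product, Finset.card_range, Finset.card_range] at h1
  have h2 : (cn S X : ℝ) ≤ (M + 1) * (c + 1) := by exact_mod_cast h1
  have h3 : (M : ℝ) ≤ q * x := by rw [hM]; exact Nat.floor_le (by positivity)
  have h4 : x ≤ (X : ℝ) ^ (2 / 3 : ℝ) := by
    rw [hx]
    exact Real.rpow_le_rpow_of_exponent_le (by exact_mod_cast hX) (by norm_num)
  have h5 : (M : ℝ) + 1 ≤ (q + 1) * x := by nlinarith
  have hc0 : (0 : ℝ) ≤ c := Nat.cast_nonneg c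
  calc (cn S X : ℝ) ≤ (M + 1) * (c + 1) := h2
    _ ≤ ((q + 1) * x) * (c + 1) := mul_le_mul_of_nonneg_right h5 (by positivity)
    _ = (q + 1) * (c + 1) * x := by ring
    _ ≤ _ := mul_le_mul_of_nonneg_left h4 (by positivity)

/-- the products `D ^ 2 t` with `2 t < D` -/
theorem th_sq : Th {s | ∃ D t : ℕ, 1 ≤ t ∧ 2 * t < D ∧ D ^ 2 * t = s} := by
  refine Th.of_pos 6 fun X hX => ?_
  obtain ⟨x, hx⟩ : ∃ x : ℝ, x = (X : ℝ) ^ (1 / 3 : ℝ) := ⟨_, rfl⟩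
  have hx1 : 1 ≤ x := by rw [hx]; exact one_le_rpow23 hX (by norm_num)
  have hx3 : x ^ 3 = X := by
    rw [hx, ← Real.rpow_natCast, ← Real.rpow_mul (by positivity)]
    norm_num
  obtain ⟨A, hA⟩ : ∃ A : ℕ, A = ⌊x⌋₊ := ⟨_, rfl⟩
  have hA1 : 1 ≤ A := by rw [hA]; exact Nat.le_floor (by exact_mod_cast hx1)
  have hAx : (A : ℝ) ≤ x := by rw [hA]; exact Nat.floor_le (by positivity)
  have hxA : x < A + 1 := by rw [hA]; exact Nat.lt_floor_add_one x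
  have hAX : A ≤ X := by
    have h1 : (A : ℝ) ≤ X := by
      rw [← hx3]
      nlinarith [mul_self_nonneg (x - 1)]
    exact_mod_cast h1
  have h1 : cn {s | ∃ D t : ℕ, 1 ≤ t ∧ 2 * t < D ∧ D ^ 2 * t = s} X ≤
      ((Finset.range (A + 1)).sigma fun _ => Finset.range (A + 1)).card +
        ((Finset.Ioc A X).sigma fun D => Finset.Icc 1 (X / D ^ 2)).card := by
    classical
    refine le_trans (cn_le (fun a : (_ : ℕ) × ℕ => a.1 ^ 2 * a.2)
      (((Finset.range (A + 1)).sigma fun _ => Finset.range (A + 1)) ∪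
        ((Finset.Ioc A X).sigma fun D => Finset.Icc 1 (X / D ^ 2))) ?_) (Finset.card_union_le _ _)
    rintro s ⟨D, t, ht, htD, rfl⟩ h1 h2
    refine ⟨⟨D, t⟩, ?_, rfl⟩
    rw [Finset.mem_union, Finset.mem_sigma, Finset.mem_sigma, Finset.mem_range, Finset.mem_range, Finset.mem_Ioc,
      Finset.mem_Icc]
    by_cases hD : D ≤ A
    · left
      exact ⟨Nat.lt_succ_of_le hD, by simp only; omega⟩
    · right
      have hDX : D ≤ X := by
        refine le_trans ?_ h2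
        calc D ≤ D ^ 2 := Nat.le_self_pow (by norm_num) D
          _ ≤ D ^ 2 * t := Nat.le_mul_of_pos_right _ (by omega)
      refine ⟨⟨by simp only; omega, hDX⟩, ht, ?_⟩
      have hD0 : 0 < D := by omega
      exact (Nat.le_div_iff_mul_le (pow_pos hD0 2)).2 (by rw [mul_comm]; exact h2)
  rw [Finset.card_sigma, Finset.card_sigma, Finset.sum_const, Finset.card_range, smul_eq_mul] at h1
  have h2 : (cn {s | ∃ D t : ℕ, 1 ≤ t ∧ 2 * t < D ∧ D ^ 2 * t = s} X : ℝ) ≤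
      (A + 1) * (A + 1) + ∑ D ∈ Finset.Ioc A X, ((X / D ^ 2 : ℕ) : ℝ) := by
    simp only [Nat.card_Icc, Nat.add_sub_cancel] at h1
    exact_mod_cast h1
  have h3 : ∑ D ∈ Finset.Ioc A X, ((X / D ^ 2 : ℕ) : ℝ) ≤ X * ((A : ℝ)⁻¹ - (X : ℝ)⁻¹) := by
    refine le_trans ?_ (mul_le_mul_of_nonneg_left (sum_Ioc_inv_sq_le_sub (α := ℝ) (by omega : A ≠ 0) hAX) (by positivity))
    rw [Finset.mul_sum]
    refine Finset.sum_le_sum fun D _ => ?_
    have h4 : ((X / D ^ 2 : ℕ) : ℝ) ≤ (X : ℝ) / ((D ^ 2 : ℕ) : ℝ) := Nat.cast_div_le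
    rw [div_eq_mul_inv] at h4
    push_cast at h4
    exact h4
  have h4 : (X : ℝ) * ((A : ℝ)⁻¹ - (X : ℝ)⁻¹) ≤ 2 * x ^ 2 := by
    have hX0 : (0 : ℝ) ≤ X := Nat.cast_nonneg X
    have hXi : (0 : ℝ) ≤ (X : ℝ)⁻¹ := by positivity
    have hA0 : (0 : ℝ) < A := by exact_mod_cast hA1
    have hA1' : (1 : ℝ) ≤ A := by exact_mod_cast hA1
    have h5 : (A : ℝ)⁻¹ ≤ 2 / x := by
      rw [inv_eq_one_div, div_le_div_iff₀ hA0 (by linarith)]
      linarith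
    calc (X : ℝ) * ((A : ℝ)⁻¹ - (X : ℝ)⁻¹) ≤ X * (2 / x) := mul_le_mul_of_nonneg_left (by linarith) hX0
      _ = 2 * x ^ 2 := by
        rw [← hx3]
        field_simp
  have h5 : (X : ℝ) ^ (2 / 3 : ℝ) = x ^ 2 := by
    rw [hx, ← Real.rpow_natCast, ← Real.rpow_mul (by positivity)]
    norm_num
  rw [h5]
  nlinarith

/-- **BLOCK T1** -/
theorem th_E2 : Th E2 := by
  have h4 : Th {s | ∃ D t : ℕ, 2 * t < D ∧ D ^ 3 * t = s ∧ 1 ≤ t} := by
    refine Th.three 1 (fun D t => D ^ 3 * t) ?_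
    rintro s ⟨D, t, h1, rfl, h2⟩
    refine ⟨D, t, ?_, by omega, rfl⟩
    rw [one_mul]
    exact Nat.le_mul_of_pos_right _ (by omega)
  refine Th.mono ?_ (Th.union th_sq h4)
  rintro s ⟨D, j, hD, hj, ⟨t, rfl⟩, h2⟩ hs
  have ht : 1 ≤ t := by
    rcases Nat.eq_zero_or_pos t with rfl | h
    · simp at hs
    · exact h
  have htD : 2 * t < D := by
    have h3 : D ^ j = D ^ (j - 1) * D := by
      rw [← pow_succ]
      congr 1
      omega
    rw [h3] at h2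
    have h4 : D ^ (j - 1) * (2 * t) < D ^ (j - 1) * D := by
      calc D ^ (j - 1) * (2 * t) = 2 * (D ^ (j - 1) * t) := by ring
        _ < _ := h2
    exact Nat.lt_of_mul_lt_mul_left h4
  rcases Nat.even_or_odd' (j - 1) with ⟨a, ha | ha⟩
  · left
    refine ⟨D ^ a, t, ht, lt_of_lt_of_le htD (Nat.le_self_pow (by omega) D), ?_⟩
    rw [ha, ← pow_mul, mul_comm a 2]
  · by_cases ha1 : a = 1
    · right
      subst ha1
      exact ⟨D, t, htD, by rw [ha], ht⟩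
    · left
      refine ⟨D ^ a, D * t, Nat.mul_pos (by omega) ht, ?_, ?_⟩
      · calc 2 * (D * t) = D * (2 * t) := by ring
          _ < D * D := Nat.mul_lt_mul_of_pos_left htD (by omega)
          _ = D ^ 2 := (sq D).symm
          _ ≤ D ^ a := Nat.pow_le_pow_right (by omega) (by omega)
      · rw [ha, ← pow_mul, pow_succ, mul_comm a 2]
        ring

end AG
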